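import Mathlib
import Pool.Agent.Work.MP_787500_nt.OT.Defs
import Pool.Agent.Work.MP_787500_nt.OP.Crd
import Pool.Agent.Work.MP_787500_nt.EU.Defs

/-!
The ordinary (Greenberg) condition at a split place above 2 (phase E5, split half): definitions (fixed, do not change).

`σ`, `σ'` are two representations of the local group `P` on `E ^ n`, dual for `b` (`LocRep`), `W` a `σ`-stable subspace.
-/

set_option autoImplicit false
set_option linter.unusedSectionVars false

namespace Pool.Agent.Work.MP_787500_nt.OU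

open Matrix
open Pool.Agent.Work.MP_787500_nt.GP (A0 IsAct OE MN actN bN bil Lat lamN bil_add_right bil_smul_right)
open Pool.Agent.Work.MP_787500_nt.KR (FSys Smooth Z1 LocRep ZV zV)
open Pool.Agent.Work.MP_787500_nt.EU (invD)
open Pool.Agent.Work.MP_787500_nt.OP (stdL)

universe v

variable {E : Type*} [NormedField E] [NormedAlgebra ℚ_[2] E] {n m : ℕ} {P : Type*} [Group P]

/-- the vectors that are fixed modulo `W` -/
def fixS (σ : P → Matrix (Fin n) (Fin n) E) (W : Submodule E (Fin n → E)) :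
    Submodule E (Fin n → E) where
  carrier := {x | ∀ g, σ g *ᵥ x - x ∈ W}
  add_mem' := fun {x y} hx hy g => by
    have e1 : σ g *ᵥ (x + y) - (x + y) = (σ g *ᵥ x - x) + (σ g *ᵥ y - y) := by
      rw [mulVec_add]
      abel
    rw [e1]
    exact W.add_mem (hx g) (hy g)
  zero_mem' := fun g => by
    rw [mulVec_zero, sub_zero]
    exact W.zero_mem
  smul_mem' := fun a x hx g => by
    have e1 : σ g *ᵥ (a • x) - a • x = a • (σ g *ᵥ x - x) := by
      rw [mulVec_smul, smul_sub]
    rw [e1]
    exact W.smul_mem a (hx g)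

theorem mem_fixS {σ : P → Matrix (Fin n) (Fin n) E} {W : Submodule E (Fin n → E)}
    {x : Fin n → E} : x ∈ fixS σ W ↔ ∀ g, σ g *ᵥ x - x ∈ W := Iff.rfl

/-- the annihilator of `W` -/
def annS (b : Matrix (Fin n) (Fin n) E) (W : Submodule E (Fin n → E)) :
    Submodule E (Fin n → E) where
  carrier := {y | ∀ x ∈ W, bil b x y = 0}
  add_mem' := fun {y z} hy hz x hx => by rw [bil_add_right, hy x hx, hz x hx, add_zero]
  zero_mem' := fun x _ => by simp [bil]
  smul_mem' := fun a y hy x hx => by rw [bil_smul_right, hy x hx, mul_zero]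

theorem mem_annS {b : Matrix (Fin n) (Fin n) E} {W : Submodule E (Fin n → E)} {y : Fin n → E} :
    y ∈ annS b W ↔ ∀ x ∈ W, bil b x y = 0 := Iff.rfl

/-- the local Euler characteristic at a place of degree 1 above 2 -/
def EulF (TP : FSys P) : Prop :=
  ∀ {U : Type v} [AddCommGroup U] [Finite U] {υ : P → U → U}, IsAct υ → Smooth TP υ →
    (∀ u : U, u + u = 0) →
    Nat.card {x : P → U // Z1 TP υ x} = Nat.card U ^ 2 * Nat.card (invD υ)

/-- Coordinates of a stable subspace `W` and of the quotient by its annihilator. -/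
structure SubQ (TP : FSys P) (χ : P → ℤ_[2]) (b : Matrix (Fin n) (Fin n) E)
    (σ σ' : P → Matrix (Fin n) (Fin n) E) (W : Submodule E (Fin n → E))
    (i : (Fin m → E) →ₗ[E] (Fin n → E)) (p : (Fin n → E) →ₗ[E] (Fin m → E))
    (σ₁ σ₁' : P → Matrix (Fin m) (Fin m) E) : Prop where
  inj : Function.Injective i
  ran : LinearMap.range i = W
  surj : Function.Surjective p
  ker : LinearMap.ker p = annS b W
  act : ∀ g x, σ g *ᵥ i x = i (σ₁ g *ᵥ x)
  act' : ∀ g y, p (σ' g *ᵥ y) = σ₁' g *ᵥ p y
  pair : ∀ x y, bil b (i x) y = bil 1 x (p y)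
  rep : LocRep TP χ (stdL E m) 1 σ₁ σ₁'

end Pool.Agent.Work.MP_787500_nt.OU
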