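import Mathlib
import Pool.Agent.Work.MP_787500_nt.OU.Defs
import Pool.Agent.Work.MP_787500_nt.KR.F06

/-!
# Module OU/Cnt (size M): counting

* `perp_count`: `GP.card_perp` (GP/F01_Card.lean) for the pairing `(x, y) ↦ iv (cup11 σ' B x y)` of `Z1 σ` and `Z1 σ'` (subgroups of the
  functions; bilinear: `L.add` with `KR.cup11_Z2`; model: `f06_B` in KR/F06.lean), `Λ = A`. The left kernel is the space of
  coboundaries (`hl.one`, and `KR.f06_left`), contained in `A`; `perpL (flip) ⊤` is this left kernel. Finite: `hl.fin`,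
  `hl.fin'`. The space of coboundaries is in bijection with `M ⧸ fixed`, so its number of elements times
  `card {m // fixed}` is `card M`.
* `card_invD`: `m ↦ (m' ↦ B m m')`; since `M'` is killed by 2 the values are in `{0, 1/2} = hf (ZMod 2)` (GP/T01_A0.lean), so it
  is an injective homomorphism from `M` to `M' →+ ZMod 2`; surjective by `GP.exists_rep` (GP/F01_Card.lean; with `B.flip`). `m` is fixed iff the
  functional is invariant: `B (σ g m) (σ' g m') = χ g • B m m' = B m m'` (`χ g` is odd, `2 B m m' = 0`; `GP.smul_hf` or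
  `hχ.odd`), and `hp.nd`. Compare `EU.evB` in EU/Add.lean.
-/

set_option autoImplicit false
set_option linter.unusedSectionVars false

namespace Pool.Agent.Work.MP_787500_nt.OU

open Matrix
open Pool.Agent.Work.MP_787500_nt.GP (A0 IsAct d0 d1 d2 tw cup11 cup21 cup12 cup01 cup02 EvPow IsPow OE MN
  actN actQ bN bil mq lft mq_lft mq_eq mq_add mq_smul Wq Lat pr0 lamN mem_OE bil_add_left bil_add_right bil_sub_left
  bil_sub_right bil_smul_left bil_smul_right pr0_zero_of_norm actQ_mq)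
open Pool.Agent.Work.MP_787500_nt.KR (FSys Sm1 Sm2 IsChar Smooth Z1 Z2 B2 LocH LocD Pair LDual LocRep ZV PerpV zV)
open Pool.Agent.Work.MP_787500_nt.EU (invD)
open Pool.Agent.Work.MP_787500_nt.PA (toE)
open Pool.Agent.Work.MP_787500_nt.OP (stdL mem_stdL KE mem_KE)
open Pool.Agent.Work.MP_787500_nt.OT (ordW mem_ordW)

universe v

/-- the cocycles as a group of functions -/
private def cZ {P : Type*} [Group P] (TP : FSys P) {M : Type*} [AddCommGroup M] {σ : P → M → M} (h : IsAct σ) :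
    AddSubgroup (P → M) where
  carrier := {x | Z1 TP σ x}
  add_mem' := fun hx hy => KR.Z1.add h hx hy
  zero_mem' := by
    refine ⟨?_, fun a b => ?_⟩
    · obtain ⟨W, hW⟩ := TP.ex
      exact ⟨W, hW, fun _ _ _ => rfl⟩
    · simp [h.zero]
  neg_mem' := fun hx => KR.Z1.neg h hx

private noncomputable def cB {P : Type*} [Group P] {TP : FSys P} {χ : P → ℤ_[2]} {iv : (P → P → A0) → A0}
    {M M' : Type*} [AddCommGroup M] [AddCommGroup M'] {σ : P → M → M} {σ' : P → M' → M'} {B : M →+ M' →+ A0}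
    (L : LocH TP χ iv) (hp : Pair TP χ σ σ' B) : cZ TP hp.act →+ cZ TP hp.act' →+ A0 :=
  AddMonoidHom.mk' (fun x => AddMonoidHom.mk'
    (fun y => iv (cup11 σ' B (x : P → M) (y : P → M')))
    (fun y y' => by
      have e : cup11 σ' B (x : P → M) ((y + y' : cZ TP hp.act') : P → M') = fun s t =>
          cup11 σ' B (x : P → M) (y : P → M') s t + cup11 σ' B (x : P → M) (y' : P → M') s t := by
        funext s t
        show B ((x : P → M) s) (σ' s ((y : P → M') t + (y' : P → M') t)) = _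
        rw [hp.act'.add, map_add]
        rfl
      rw [e, L.add _ _ (KR.cup11_Z2 hp x.2 y.2) (KR.cup11_Z2 hp x.2 y'.2)]))
    (fun x x' => by
      ext y
      have e : cup11 σ' B ((x + x' : cZ TP hp.act) : P → M) (y : P → M') = fun s t =>
          cup11 σ' B (x : P → M) (y : P → M') s t + cup11 σ' B (x' : P → M) (y : P → M') s t := by
        funext s t
        show B ((x : P → M) s + (x' : P → M) s) (σ' s ((y : P → M') t)) = _
        rw [map_add]
        rfl
      show iv (cup11 σ' B ((x + x' : cZ TP hp.act) : P → M) (y : P → M')) =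
        iv (cup11 σ' B (x : P → M) (y : P → M')) + iv (cup11 σ' B (x' : P → M) (y : P → M'))
      rw [e, L.add _ _ (KR.cup11_Z2 hp x.2 y.2) (KR.cup11_Z2 hp x'.2 y.2)])

private theorem cB_apply {P : Type*} [Group P] {TP : FSys P} {χ : P → ℤ_[2]} {iv : (P → P → A0) → A0}
    {M M' : Type*} [AddCommGroup M] [AddCommGroup M'] {σ : P → M → M} {σ' : P → M' → M'} {B : M →+ M' →+ A0}
    (L : LocH TP χ iv) (hp : Pair TP χ σ σ' B) (x : cZ TP hp.act) (y : cZ TP hp.act') :
    cB L hp x y = iv (cup11 σ' B (x : P → M) (y : P → M')) := rfl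

section perp

variable {P : Type*} [Group P] {TP : FSys P} {χ : P → ℤ_[2]} {iv : (P → P → A0) → A0}
  {O : Type*} [CommRing O] {M M' : Type*} [AddCommGroup M] [AddCommGroup M'] [Module O M]
  [Module O M'] [Finite M] [Finite M'] {σ : P → M → M} {σ' : P → M' → M'} {B : M →+ M' →+ A0}

theorem perp_count (L : LocH TP χ iv) (hp : Pair TP χ σ σ' B) (hl : LDual TP iv σ σ' B)
    {A : Submodule O (P → M)} {A' : Submodule O (P → M')} (hA0 : ∀ m, d0 σ m ∈ A)
    (hA : ∀ x ∈ A, Z1 TP σ x)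
    (hA' : ∀ y, y ∈ A' ↔ Z1 TP σ' y ∧ ∀ x ∈ A, iv (cup11 σ' B x y) = 0) :
    Nat.card A * Nat.card A' * Nat.card {m : M // ∀ g, σ g m = m} =
      Nat.card {y : P → M' // Z1 TP σ' y} * Nat.card M := by
  have hf1 : Finite (cZ TP hp.act) := hl.fin
  have hf2 : Finite (cZ TP hp.act') := hl.fin'
  let Λ : AddSubgroup (cZ TP hp.act) := A.toAddSubgroup.comap (cZ TP hp.act).subtype
  have hΛ : ∀ x : cZ TP hp.act, x ∈ Λ ↔ (x : P → M) ∈ A := fun x => Iff.rfl
  have hK : ∀ a : cZ TP hp.act, (∀ a', cB L hp a a' = 0) → a ∈ Λ := by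
    intro a ha
    obtain ⟨m, hm⟩ := hl.one a a.2 fun y hy => ha ⟨y, hy⟩
    rw [hΛ, hm]
    exact hA0 m
  have h1 := GP.card_perp (cB L hp) Λ hK
  have h2 : Nat.card Λ = Nat.card A := Nat.card_congr
    ⟨fun x => ⟨x.1.1, x.2⟩, fun x => ⟨⟨x.1, hA x.1 x.2⟩, x.2⟩, fun x => rfl, fun x => rfl⟩
  have h3 : Nat.card (GP.perpL (cB L hp) Λ) = Nat.card A' := by
    refine Nat.card_congr ⟨fun y => ⟨y.1.1, (hA' _).2 ⟨y.1.2, fun x hx => ?_⟩⟩,
      fun y => ⟨⟨y.1, ((hA' _).1 y.2).1⟩, fun x hx => ?_⟩, fun y => rfl, fun y => rfl⟩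
    · exact y.2 ⟨x, hA x hx⟩ hx
    · exact ((hA' _).1 y.2).2 x.1 hx
  -- the coboundaries
  let φ : M →+ cZ TP hp.act := AddMonoidHom.mk' (fun m => ⟨d0 σ m, KR.d0_Z1 hp.act hp.sm m⟩) (fun m m' => by
    apply Subtype.ext
    funext g
    show σ g (m + m') - (m + m') = (σ g m - m) + (σ g m' - m')
    rw [hp.act.add]
    abel)
  have hφ : ∀ m, ((φ m : cZ TP hp.act) : P → M) = d0 σ m := fun m => rfl
  have h4 : Nat.card M = Nat.card φ.ker * Nat.card φ.range := by
    rw [mul_comm, ← Nat.card_congr (QuotientAddGroup.quotientKerEquivRange φ).toEquiv]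
    exact φ.ker.card_eq_card_quotient_mul_card_addSubgroup
  have h5 : Nat.card φ.ker = Nat.card {m : M // ∀ g, σ g m = m} := by
    refine Nat.card_congr (Equiv.subtypeEquivRight fun m => ?_)
    rw [AddMonoidHom.mem_ker]
    constructor
    · intro h g
      have h6 := congrFun (congrArg (fun z : cZ TP hp.act => (z : P → M)) h) g
      exact sub_eq_zero.1 h6
    · intro h
      apply Subtype.ext
      funext g
      exact sub_eq_zero.2 (h g)
  have h6 : GP.perpL (cB L hp).flip ⊤ = φ.range := by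
    ext a
    constructor
    · intro ha
      obtain ⟨m, hm⟩ := hl.one a a.2 fun y hy => ha ⟨y, hy⟩ trivial
      exact ⟨m, Subtype.ext hm.symm⟩
    · rintro ⟨m, rfl⟩ y -
      exact KR.f06_left L hp m y.2
  have h7 : Nat.card (cZ TP hp.act') = Nat.card {y : P → M' // Z1 TP σ' y} := rfl
  rw [h2, h3, h6, h7] at h1
  rw [h1, h4, h5]
  ring

theorem card_invD (hχ : ∀ g, (2 : ℤ_[2]) ∣ χ g - 1) (hp : Pair TP χ σ σ' B)
    (h2 : ∀ m' : M', m' + m' = 0) :
    Nat.card (invD σ') = Nat.card {m : M // ∀ g, σ g m = m} := by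
  have hex : ∀ (m : M) (u : M'), ∃ a, B m u = GP.hf a := fun m u =>
    GP.eq_hf (by rw [← map_add, h2, map_zero])
  choose F hF using hex
  let Φ : M → (M' →+ ZMod 2) := fun m => AddMonoidHom.mk' (F m) (fun u v => by
    apply GP.hf_inj
    rw [GP.hf_add, ← hF, ← hF, ← hF, map_add])
  have hΦ : ∀ m u, B m u = GP.hf (Φ m u) := hF
  symm
  refine Nat.card_congr (Equiv.ofBijective (fun m : {m : M // ∀ g, σ g m = m} =>
    (⟨Φ m.1, fun g u => ?_⟩ : invD σ')) ⟨?_, ?_⟩)
  · apply GP.hf_inj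
    rw [← hΦ]
    conv_lhs => rw [← m.2 g]
    rw [hp.eqv, hΦ, GP.smul_hf (hχ g)]
  · intro m m' hmm
    apply Subtype.ext
    rw [← sub_eq_zero]
    apply hp.nd
    intro u
    have h3 : Φ m.1 = Φ m'.1 := congrArg Subtype.val hmm
    rw [map_sub, AddMonoidHom.sub_apply, hΦ, hΦ, h3, sub_self]
  · rintro ⟨l, hl⟩
    have hl' : ∀ g u, l (σ' g u) = l u := hl
    let hfh : ZMod 2 →+ A0 := AddMonoidHom.mk' GP.hf GP.hf_add
    obtain ⟨m, hm⟩ := GP.exists_rep B.flip (hfh.comp l) (fun a ha => by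
      rw [hp.nd' a ha, map_zero])
    have hm' : ∀ u, B m u = GP.hf (l u) := hm
    refine ⟨⟨m, fun g => ?_⟩, ?_⟩
    · rw [← sub_eq_zero]
      apply hp.nd
      intro w
      have h4 : σ' g (σ' g⁻¹ w) = w := by rw [← hp.act'.mul, mul_inv_cancel, hp.act'.one]
      have h5 : B (σ g m) (σ' g (σ' g⁻¹ w)) = B m (σ' g (σ' g⁻¹ w)) := by
        rw [hp.eqv, hm', hm', hl' g, GP.smul_hf (hχ g)]
      rw [h4] at h5
      rw [map_sub, AddMonoidHom.sub_apply, h5, sub_self]
    · apply Subtype.ext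
      ext u
      apply GP.hf_inj
      show GP.hf (Φ m u) = GP.hf (l u)
      rw [← hΦ, hm']

end perp

end Pool.Agent.Work.MP_787500_nt.OU
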