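import Mathlib
import Pool.Agent.Work.MP_787500_nt.OU.Defs
import Pool.Agent.Work.MP_787500_nt.OP.Crd
import Pool.Agent.Work.MP_787500_nt.GP.L03_Ring

/-!
# Module OU/Crd (size M): coordinates of a stable subspace and of the quotient by its annihilator

THE PROOF IS THAT OF OP/Crd.lean (`exists_spl`, complete there; the lemmas are private there: copy them) with the symmetric
form `B x y = bil b x y` instead of the alternating one. `T` is its own dual for `b` (`hl.dual`), `W ⊓ T` is a direct summand of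
`T` with basis `e_1, ..., e_m`; there are `f_j ∈ T` with `b (e_j) (f_k) = δ_jk`. `i x = ∑ j, x j • e j`, `p y = (b (e j) y)_j`,
`ker p = annS b W` (the `e j` span `W`), `p (∑ k, y k • f k) = y`. `σ₁ g`: the matrix of the action on `W` (`i` is injective);
`σ₁' g`: the matrix of `y ↦ p (σ' g (∑ k, y k • f k))`; `act'`: `ker p` is `σ'`-stable, because
`bil b x (σ' g y) = χ g * bil b (σ g⁻¹ x) y` (`hr.dual`) for `x ∈ W`. `rep`: as in OP/Crd (`st`: `i x ∈ T` iff `x ∈ stdL`;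
`p y ∈ stdL` for `y ∈ T`, and `∑ k, y k • f k ∈ T` for `y ∈ stdL`; `sm`, `sm'`: bounded linear maps; `dual`:
`bil 1 (σ₁ g x) (σ₁' g (p y)) = bil b (i (σ₁ g x)) (σ' g y) = bil b (σ g (i x)) (σ' g y) = χ g * bil b (i x) y`).
`lat_std`: private in OP/Crd (`crd_lat`), copy it.
-/

set_option autoImplicit false
set_option linter.unusedSectionVars false

namespace Pool.Agent.Work.MP_787500_nt.OU

open Matrix
open Pool.Agent.Work.MP_787500_nt.GP (A0 IsAct d0 d1 d2 tw cup11 cup21 cup12 cup01 cup02 EvPow IsPow OE MN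
  actN actQ bN bil mq lft mq_lft mq_eq mq_add mq_smul Wq Lat pr0 lamN mem_OE bil_add_left bil_add_right bil_sub_left
  bil_sub_right bil_smul_left bil_smul_right pr0_zero_of_norm actQ_mq)
open Pool.Agent.Work.MP_787500_nt.KR (FSys Sm1 Sm2 IsChar Smooth Z1 Z2 B2 LocH LocD Pair LDual LocRep ZV PerpV zV)
open Pool.Agent.Work.MP_787500_nt.EU (invD)
open Pool.Agent.Work.MP_787500_nt.PA (toE)
open Pool.Agent.Work.MP_787500_nt.OP (stdL mem_stdL KE mem_KE)
open Pool.Agent.Work.MP_787500_nt.OT (ordW mem_ordW)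

universe v

variable {E : Type v} [NormedField E] [NormedAlgebra ℚ_[2] E] [FiniteDimensional ℚ_[2] E] {n m : ℕ}
  {P : Type*} [Group P] {TP : FSys P} {χ : P → ℤ_[2]} {iv : (P → P → A0) → A0}
  {b : Matrix (Fin n) (Fin n) E} {l : OE E} {t : E →ₗ[ℚ_[2]] ℚ_[2]}
  {T : Submodule (OE E) (Fin n → E)} {σ σ' : P → Matrix (Fin n) (Fin n) E}
  {W : Submodule E (Fin n → E)}

private def syF (b : Matrix (Fin n) (Fin n) E) :
    (Fin n → E) →ₗ[E] (Fin n → E) →ₗ[E] E :=
  LinearMap.mk₂ E (fun x y => bil b x y)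
    (fun x y z => by rw [bil_add_left])
    (fun a x y => by rw [bil_smul_left, smul_eq_mul])
    (fun x y z => by rw [bil_add_right])
    (fun a x y => by rw [bil_smul_right, smul_eq_mul])

private theorem syF_apply (b : Matrix (Fin n) (Fin n) E) (x y : Fin n → E) :
    syF b x y = bil b x y := rfl

private theorem crd_pow (hllt : ‖(l : E)‖ < 1) (C ε : ℝ) (hε : 0 < ε) :
    ∃ k : ℕ, ‖(l : E)‖ ^ k * C < ε := by
  have h1 : Filter.Tendsto (fun k : ℕ => ‖(l : E)‖ ^ k * C) Filter.atTop (nhds (0 * C)) :=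
    (tendsto_pow_atTop_nhds_zero_of_lt_one (norm_nonneg _) hllt).mul_const C
  rw [zero_mul] at h1
  exact (h1.eventually (gt_mem_nhds hε)).exists

private theorem crd_frac (hlne : (l : E) ≠ 0) (hllt : ‖(l : E)‖ < 1) :
    IsFractionRing (OE E) E := by
  refine IsFractionRing.of_field (R := OE E) (K := E) fun z => ?_
  obtain ⟨k, hk⟩ := crd_pow hllt ‖z‖ 1 one_pos
  refine ⟨⟨(l : E) ^ k * z, ?_⟩, l ^ k, ?_⟩
  · rw [mem_OE, norm_mul, norm_pow]
    exact hk.le
  · show z = ((l : E) ^ k * z) / (((l ^ k : OE E)) : E)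
    rw [Subring.coe_pow, mul_div_cancel_left₀ _ (pow_ne_zero _ hlne)]

private theorem crd_scale (hllt : ‖(l : E)‖ < 1)
    (hopn : ∃ r : ℝ, 0 < r ∧ ∀ x : Fin n → E, ‖x‖ < r → x ∈ T) (x : Fin n → E) :
    ∃ k : ℕ, (l : E) ^ k • x ∈ T := by
  obtain ⟨r, hr, hT⟩ := hopn
  obtain ⟨k, hk⟩ := crd_pow hllt ‖x‖ r hr
  refine ⟨k, hT _ ?_⟩
  rw [norm_smul, norm_pow]
  exact hk

private theorem crd_basis (hlne : (l : E) ≠ 0) (hllt : ‖(l : E)‖ < 1)
    (hlmax : ∀ x : E, ‖x‖ < 1 → ‖x‖ ≤ ‖(l : E)‖) (hbdd : ∃ R : ℝ, ∀ x ∈ T, ‖x‖ ≤ R) :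
    ∃ k : ℕ, Nonempty (Module.Basis (Fin k) (OE E) T) := by
  have hpid : IsPrincipalIdealRing (OE E) := GP.isPID hlne hllt hlmax
  obtain ⟨R, hR⟩ := hbdd
  obtain ⟨k, hk⟩ := crd_pow hllt R 1 one_pos
  let Φ : T →ₗ[OE E] (Fin n → OE E) :=
    { toFun := fun x i => ⟨(l : E) ^ k * x.1 i, by
        rw [mem_OE, norm_mul, norm_pow]
        exact (mul_le_mul_of_nonneg_left ((norm_le_pi_norm x.1 i).trans (hR _ x.2))
          (by positivity)).trans hk.le⟩
      map_add' := fun x y => by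
        funext i
        apply Subtype.ext
        exact mul_add _ _ _
      map_smul' := fun a x => by
        funext i
        apply Subtype.ext
        show (l : E) ^ k * ((a : E) * x.1 i) = (a : E) * ((l : E) ^ k * x.1 i)
        ring }
  have hΦ : Function.Injective Φ := by
    intro x y hxy
    apply Subtype.ext
    funext i
    have h1 : (l : E) ^ k * x.1 i = (l : E) ^ k * y.1 i := congrArg Subtype.val (congrFun hxy i)
    exact mul_left_cancel₀ (pow_ne_zero _ hlne) h1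
  obtain ⟨m, ⟨β⟩⟩ := Submodule.nonempty_basis_of_pid (Pi.basisFun (OE E) (Fin n))
    (LinearMap.range Φ)
  exact ⟨m, ⟨β.map (LinearEquiv.ofInjective Φ hΦ).symm⟩⟩

/-- the adapted vectors -/
private theorem crd_core (hlne : (l : E) ≠ 0) (hllt : ‖(l : E)‖ < 1)
    (hlmax : ∀ x : E, ‖x‖ < 1 → ‖x‖ ≤ ‖(l : E)‖)
    (B : (Fin n → E) →ₗ[E] (Fin n → E) →ₗ[E] E) (hB : ∀ x y, B x y = B y x)
    (hbdd : ∃ R : ℝ, ∀ x ∈ T, ‖x‖ ≤ R)
    (hopn : ∃ r : ℝ, 0 < r ∧ ∀ x : Fin n → E, ‖x‖ < r → x ∈ T)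
    (hT : ∀ x, x ∈ T ↔ ∀ y ∈ T, ‖B x y‖ ≤ 1) (Wp : Submodule E (Fin n → E)) :
    ∃ (m : ℕ) (e f : Fin m → Fin n → E), (∀ j, e j ∈ Wp) ∧ (∀ j, e j ∈ T) ∧ (∀ j, f j ∈ T) ∧
      (∀ j k, B (e j) (f k) = if j = k then 1 else 0) ∧
      ∀ x ∈ Wp, ∃ c : Fin m → E, x = ∑ j, c j • e j := by
  have hpid : IsPrincipalIdealRing (OE E) := GP.isPID hlne hllt hlmax
  have hfrac := crd_frac hlne hllt
  obtain ⟨k, ⟨b0⟩⟩ := crd_basis (T := T) hlne hllt hlmax hbdd
  let N : Submodule (OE E) T := (Wp.restrictScalars (OE E)).comap T.subtype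
  have hN : ∀ x : T, x ∈ N ↔ (x : Fin n → E) ∈ Wp := fun x => Iff.rfl
  obtain ⟨m, ⟨bM, bN, f, a, snf⟩⟩ := Submodule.smithNormalForm b0 N
  have hli : LinearIndependent E (fun i => (bM i : Fin n → E)) := by
    rw [← LinearIndependent.iff_fractionRing (R := OE E)]
    exact bM.linearIndependent.map' T.subtype (Submodule.ker_subtype _)
  have hxs : ∀ x : T, (x : Fin n → E) =
      ∑ i, ((bM.repr x i : OE E) : E) • (bM i : Fin n → E) := by
    intro x
    have h1 := congrArg Subtype.val (bM.sum_repr x)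
    rw [Submodule.coe_sum] at h1
    exact h1.symm
  have hsp : ⊤ ≤ Submodule.span E (Set.range fun i => (bM i : Fin n → E)) := by
    rintro x -
    obtain ⟨j, hj⟩ := crd_scale (T := T) hllt hopn x
    have h1 := hxs ⟨_, hj⟩
    have h2 : x = ((l : E) ^ j)⁻¹ •
        ∑ i, ((bM.repr ⟨_, hj⟩ i : OE E) : E) • (bM i : Fin n → E) := by
      rw [← h1, smul_smul, inv_mul_cancel₀ (pow_ne_zero _ hlne), one_smul]
    rw [h2]
    exact Submodule.smul_mem _ _ (Submodule.sum_mem _ fun i _ =>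
      Submodule.smul_mem _ _ (Submodule.subset_span ⟨i, rfl⟩))
  let bE : Module.Basis (Fin k) E (Fin n → E) := Module.Basis.mk hli hsp
  have hbE : ∀ i, bE i = (bM i : Fin n → E) := fun i => Module.Basis.mk_apply hli hsp i
  have hco : ∀ x ∈ T, ∀ i, ‖bE.repr x i‖ ≤ 1 := by
    intro x hx i
    have h1 : x = ∑ i, ((bM.repr ⟨x, hx⟩ i : OE E) : E) • bE i := by
      simp only [hbE]
      exact hxs ⟨x, hx⟩
    have h2 : bE.repr x = Finsupp.equivFunOnFinite.symm
        (fun i => ((bM.repr ⟨x, hx⟩ i : OE E) : E)) := by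
      conv_lhs => rw [h1]
      ext i
      rw [map_sum, Finsupp.finsetSum_apply]
      simp [Module.Basis.repr_self, Finsupp.single_apply]
    rw [h2]
    exact (bM.repr ⟨x, hx⟩ i).2
  -- nondegeneracy
  let Ψ : (Fin n → E) →ₗ[E] Module.Dual E (Fin n → E) := B.flip
  have hΨi : Function.Injective Ψ := by
    rw [injective_iff_map_eq_zero]
    intro y hy
    have h1 : ∀ x, B x y = 0 := fun x => LinearMap.congr_fun hy x
    obtain ⟨R, hR⟩ := hbdd
    have h2 : ∀ c : E, c • y ∈ T := by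
      intro c
      rw [hT]
      intro x _
      rw [map_smul, LinearMap.smul_apply, hB, h1, smul_zero, norm_zero]
      exact zero_le_one
    by_contra hne
    obtain ⟨j, hj⟩ := crd_pow (l := l) hllt (R + 1) ‖y‖ (norm_pos_iff.2 hne)
    have h3 := hR _ (h2 ((l : E) ^ j)⁻¹)
    rw [norm_smul, norm_inv, norm_pow] at h3
    have h4 : 0 < ‖(l : E)‖ ^ j := pow_pos (norm_pos_iff.2 hlne) j
    rw [inv_mul_le_iff₀ h4] at h3
    nlinarith
  have hΨs : Function.Surjective Ψ :=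
    (LinearMap.injective_iff_surjective_of_finrank_eq_finrank
      (Subspace.dual_finrank_eq).symm).1 hΨi
  choose F hF using fun i => hΨs (bE.coord i)
  have hF' : ∀ i x, B x (F i) = bE.repr x i := fun i x => LinearMap.congr_fun (hF i) x
  have ha : ∀ j, a j ≠ 0 := by
    intro j h0
    have h1 := snf j
    rw [h0, zero_smul] at h1
    exact bN.ne_zero j (Subtype.ext h1)
  have ha' : ∀ j, (a j : E) ≠ 0 := fun j h0 => ha j (Subtype.ext h0)
  have heN : ∀ j, (bM (f j) : Fin n → E) ∈ Wp := by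
    intro j
    have h1 : ((bN j : T) : Fin n → E) ∈ Wp := (bN j).2
    rw [snf j] at h1
    have h2 : (bM (f j) : Fin n → E) = (a j : E)⁻¹ • ((a j • bM (f j) : T) : Fin n → E) := by
      show _ = (a j : E)⁻¹ • (a j : E) • (bM (f j) : Fin n → E)
      rw [smul_smul, inv_mul_cancel₀ (ha' j), one_smul]
    rw [h2]
    exact Wp.smul_mem _ h1
  refine ⟨m, fun j => (bM (f j) : Fin n → E), fun j => F (f j), heN, fun j => (bM (f j)).2,
    fun j => ?_, fun j k => ?_, fun x hx => ?_⟩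
  · rw [hT]
    intro y hy
    rw [hB, hF']
    exact hco y hy _
  · rw [hF']
    show bE.repr (bM (f j) : Fin n → E) (f k) = _
    rw [← hbE, Module.Basis.repr_self, Finsupp.single_apply]
    simp only [f.injective.eq_iff]
  · obtain ⟨j, hj⟩ := crd_scale (T := T) hllt hopn x
    have hmem : (⟨_, hj⟩ : T) ∈ N := Wp.smul_mem _ hx
    have h1 := congrArg (fun z : N => ((z : T) : Fin n → E)) (bN.sum_repr ⟨⟨_, hj⟩, hmem⟩)
    simp only [Submodule.coe_sum] at h1
    refine ⟨fun i => ((l : E) ^ j)⁻¹ * (((bN.repr ⟨⟨_, hj⟩, hmem⟩ i : OE E) : E) * (a i : E)),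
      ?_⟩
    have h2 : x = ((l : E) ^ j)⁻¹ • ((l : E) ^ j • x) := by
      rw [smul_smul, inv_mul_cancel₀ (pow_ne_zero _ hlne), one_smul]
    conv_lhs => rw [h2, ← h1]
    rw [Finset.smul_sum]
    refine Finset.sum_congr rfl fun i _ => ?_
    rw [mul_smul]
    congr 1
    have h3 := congrArg Subtype.val (snf i)
    show ((bN.repr ⟨⟨_, hj⟩, hmem⟩ i : OE E) : E) • ((bN i : T) : Fin n → E) = _
    rw [h3, mul_smul]
    rfl

private theorem crd_sm {ρ : P → Matrix (Fin n) (Fin n) E} {a : (Fin n → E) →ₗ[E] (Fin m → E)} {c : (Fin m → E) →ₗ[E] (Fin n → E)}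
    {σ : P → Matrix (Fin m) (Fin m) E} (h1 : ∀ g x, σ g *ᵥ x = a (ρ g *ᵥ c x))
    (h2 : ∀ x, a (c x) = x)
    (hsm : ∀ ε : ℝ, 0 < ε → ∃ W, TP.mem W ∧ ∀ w ∈ W, ∀ x : Fin n → E,
      ‖ρ w *ᵥ x - x‖ ≤ ε * ‖x‖) :
    ∀ ε : ℝ, 0 < ε → ∃ W, TP.mem W ∧ ∀ w ∈ W, ∀ x : Fin m → E,
      ‖σ w *ᵥ x - x‖ ≤ ε * ‖x‖ := by
  intro ε hε
  obtain ⟨C, hC, ha⟩ := OP.lin_bdd a
  obtain ⟨C', hC', hc⟩ := OP.lin_bdd c
  obtain ⟨W, hW, hw⟩ := hsm (ε / (C * C' + 1)) (by positivity)
  refine ⟨W, hW, fun w hw' x => ?_⟩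
  have e : σ w *ᵥ x - x = a (ρ w *ᵥ c x - c x) := by
    rw [map_sub, h2, h1]
  rw [e]
  have h3 : 0 ≤ ε / (C * C' + 1) := by positivity
  calc ‖a (ρ w *ᵥ c x - c x)‖ ≤ C * ‖ρ w *ᵥ c x - c x‖ := ha _
    _ ≤ C * (ε / (C * C' + 1) * ‖c x‖) := mul_le_mul_of_nonneg_left (hw w hw' _) hC
    _ ≤ C * (ε / (C * C' + 1) * (C' * ‖x‖)) :=
        mul_le_mul_of_nonneg_left (mul_le_mul_of_nonneg_left (hc x) h3) hC
    _ = (C * C') * (ε / (C * C' + 1)) * ‖x‖ := by ring
    _ ≤ ε * ‖x‖ := by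
        refine mul_le_mul_of_nonneg_right ?_ (norm_nonneg _)
        rw [mul_div_assoc', div_le_iff₀ (by positivity)]
        nlinarith [mul_nonneg hC hC']

private theorem crd_lat {b : Matrix (Fin n) (Fin n) E} (h : Lat b l t T) :
    Lat (1 : Matrix (Fin m) (Fin m) E) l t (stdL E m) where
  lne := h.lne
  llt := h.llt
  lmax := h.lmax
  tint := h.tint
  tdual := h.tdual
  trep := h.trep
  symm := Matrix.transpose_one
  dual x := by
    have hu := Gn.ultra 2 E
    constructor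
    · intro hx y hy
      rw [bil, one_mulVec]
      refine IsUltrametricDist.norm_sum_le_of_forall_le_of_nonneg zero_le_one fun j _ => ?_
      rw [norm_mul]
      exact mul_le_one₀ (hx j) (norm_nonneg _) (hy j)
    · intro hx j
      have h1 := hx (Pi.single j 1) (fun k => by
        by_cases hk : k = j
        · subst hk
          rw [Pi.single_eq_same, norm_one]
        · rw [Pi.single_eq_of_ne hk, norm_zero]
          exact zero_le_one)
      rw [bil, one_mulVec, dotProduct_single, mul_one] at h1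
      exact h1
  bdd := ⟨1, fun x hx => (pi_norm_le_iff_of_nonneg zero_le_one).2 hx⟩
  opn := ⟨1, one_pos, fun x hx j => (norm_le_pi_norm x j).trans hx.le⟩

theorem lat_std (hl : Lat b l t T) : Lat (1 : Matrix (Fin m) (Fin m) E) l t (stdL E m) := by
  exact crd_lat hl

theorem exists_subQ (hl : Lat b l t T) (hr : LocRep TP χ T b σ σ')
    (hst : ∀ g, ∀ x ∈ W, σ g *ᵥ x ∈ W) :
    ∃ (m : ℕ) (i : (Fin m → E) →ₗ[E] (Fin n → E)) (p : (Fin n → E) →ₗ[E] (Fin m → E))
      (σ₁ σ₁' : P → Matrix (Fin m) (Fin m) E), SubQ TP χ b σ σ' W i p σ₁ σ₁' := by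
  have hB : ∀ x y, syF b x y = syF b y x := by
    intro x y
    rw [syF_apply, syF_apply, GP.bil_symm hl.symm]
  have hBT : ∀ x, x ∈ T ↔ ∀ y ∈ T, ‖syF b x y‖ ≤ 1 := fun x => hl.dual x
  obtain ⟨m, e, f, heW, heT, hfT, hef, hsp⟩ := crd_core hl.lne hl.llt hl.lmax (syF b) hB
    hl.bdd hl.opn hBT W
  let i : (Fin m → E) →ₗ[E] (Fin n → E) := Fintype.linearCombination E e
  let s : (Fin m → E) →ₗ[E] (Fin n → E) := Fintype.linearCombination E f
  let p : (Fin n → E) →ₗ[E] (Fin m → E) := LinearMap.pi fun j => syF b (e j)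
  let q : (Fin n → E) →ₗ[E] (Fin m → E) := LinearMap.pi fun j => (syF b).flip (f j)
  have hi : ∀ x, i x = ∑ j, x j • e j := fun x => rfl
  have hs : ∀ x, s x = ∑ j, x j • f j := fun x => rfl
  have hp : ∀ x j, p x j = syF b (e j) x := fun x j => rfl
  have hq : ∀ x j, q x j = syF b x (f j) := fun x j => rfl
  have hiW : ∀ x, i x ∈ W := fun x => by
    rw [hi]
    exact W.sum_mem fun j _ => W.smul_mem _ (heW j)
  have hps : ∀ x, p (s x) = x := by
    intro x
    funext j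
    rw [hp, hs, map_sum]
    simp only [map_smul, hef, smul_eq_mul, mul_ite, mul_one, mul_zero, Finset.sum_ite_eq,
      Finset.mem_univ, if_true]
  have hqi : ∀ x, q (i x) = x := by
    intro x
    funext j
    rw [hq, hi, map_sum, LinearMap.sum_apply]
    simp only [map_smul, LinearMap.smul_apply, hef, smul_eq_mul, mul_ite, mul_one, mul_zero,
      Finset.sum_ite_eq', Finset.mem_univ, if_true]
  have hrange : LinearMap.range i = W := by
    apply le_antisymm
    · rintro _ ⟨x, rfl⟩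
      exact hiW x
    · intro x hx
      obtain ⟨c, hc⟩ := hsp x hx
      exact ⟨c, by rw [hi, hc]⟩
  have hinj : Function.Injective i := Function.LeftInverse.injective (g := q) hqi
  have hiq : ∀ w ∈ W, i (q w) = w := by
    intro w hw
    rw [← hrange] at hw
    obtain ⟨c, rfl⟩ := hw
    rw [hqi]
  have hpair : ∀ x y, bil b (i x) y = bil (1 : Matrix (Fin m) (Fin m) E) x (p y) := by
    intro x y
    rw [← syF_apply, hi, map_sum, LinearMap.sum_apply, bil, one_mulVec]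
    refine Finset.sum_congr rfl fun j _ => ?_
    rw [map_smul, LinearMap.smul_apply, smul_eq_mul, hp]
  have hker : ∀ y, p y = 0 ↔ y ∈ annS b W := by
    intro y
    rw [mem_annS]
    constructor
    · intro h x hx
      rw [← hiq x hx, hpair, h, bil, mulVec_zero, dotProduct_zero]
    · intro h
      funext j
      rw [hp, syF_apply, h _ (heW j)]
      rfl
  have hstab : ∀ g, ∀ z ∈ annS b W, σ' g *ᵥ z ∈ annS b W := by
    intro g z hz
    rw [mem_annS] at hz ⊢
    intro x hx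
    have h1 : x = σ g *ᵥ (σ g⁻¹ *ᵥ x) := by
      rw [mulVec_mulVec, ← hr.mul, mul_inv_cancel, hr.one, one_mulVec]
    rw [h1, hr.dual, hz _ (hst g⁻¹ x hx), mul_zero]
  have hBint : ∀ x ∈ T, ∀ y ∈ T, ‖syF b x y‖ ≤ 1 := fun x hx => (hBT x).1 hx
  have hiT : ∀ x ∈ stdL E m, i x ∈ T := by
    intro x hx
    rw [hi]
    exact T.sum_mem fun j _ => T.smul_mem (⟨x j, hx j⟩ : OE E) (heT j)
  have hsT : ∀ x ∈ stdL E m, s x ∈ T := by
    intro x hx
    rw [hs]
    exact T.sum_mem fun j _ => T.smul_mem (⟨x j, hx j⟩ : OE E) (hfT j)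
  have hpT : ∀ x ∈ T, p x ∈ stdL E m := fun x hx j => hBint _ (heT j) _ hx
  have hqT : ∀ x ∈ T, q x ∈ stdL E m := fun x hx j => hBint _ hx _ (hfT j)
  let σ₁ : P → Matrix (Fin m) (Fin m) E := fun g =>
    LinearMap.toMatrix' (q ∘ₗ Matrix.toLin' (σ g) ∘ₗ i)
  let σ₁' : P → Matrix (Fin m) (Fin m) E := fun g =>
    LinearMap.toMatrix' (p ∘ₗ Matrix.toLin' (σ' g) ∘ₗ s)
  have hσ₁ : ∀ g x, σ₁ g *ᵥ x = q (σ g *ᵥ i x) := fun g x => by
    show LinearMap.toMatrix' (q ∘ₗ Matrix.toLin' (σ g) ∘ₗ i) *ᵥ x = _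
    rw [← Matrix.toLin'_apply, Matrix.toLin'_toMatrix']
    rfl
  have hσ₁' : ∀ g x, σ₁' g *ᵥ x = p (σ' g *ᵥ s x) := fun g x => by
    show LinearMap.toMatrix' (p ∘ₗ Matrix.toLin' (σ' g) ∘ₗ s) *ᵥ x = _
    rw [← Matrix.toLin'_apply, Matrix.toLin'_toMatrix']
    rfl
  have hact : ∀ g x, σ g *ᵥ i x = i (σ₁ g *ᵥ x) := by
    intro g x
    rw [hσ₁, hiq _ (hst g _ (hiW x))]
  have hact' : ∀ g y, p (σ' g *ᵥ y) = σ₁' g *ᵥ p y := by
    intro g y
    rw [hσ₁']
    have h1 : y - s (p y) ∈ annS b W := by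
      rw [← hker, map_sub, hps, sub_self]
    have h2 := (hker _).2 (hstab g _ h1)
    rw [mulVec_sub, map_sub, sub_eq_zero] at h2
    exact h2
  have hone : ∀ (A : Matrix (Fin m) (Fin m) E), (∀ x, A *ᵥ x = x) → A = 1 := by
    intro A hA
    apply Matrix.toLin'.injective
    ext1 j
    apply LinearMap.ext
    intro c
    show A *ᵥ _ = (1 : Matrix (Fin m) (Fin m) E) *ᵥ _
    rw [hA, one_mulVec]
  have hmul : ∀ (A B : Matrix (Fin m) (Fin m) E), (∀ x, A *ᵥ x = B *ᵥ x) → A = B := by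
    intro A B hA
    apply Matrix.toLin'.injective
    apply LinearMap.ext
    intro x
    exact hA x
  have hrep : LocRep TP χ (stdL E m) (1 : Matrix (Fin m) (Fin m) E) σ₁ σ₁' :=
    { one := hone _ fun x => by rw [hσ₁, hr.one, one_mulVec, hqi]
      mul := fun g u => hmul _ _ fun x => by
        rw [hσ₁, hr.mul, ← mulVec_mulVec, hact, ← hσ₁, mulVec_mulVec]
      one' := hone _ fun x => by rw [hσ₁', hr.one', one_mulVec, hps]
      mul' := fun g u => hmul _ _ fun x => by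
        rw [hσ₁', hr.mul', ← mulVec_mulVec, hact', ← hσ₁', mulVec_mulVec]
      st := fun g x hx => by
        rw [hσ₁]
        exact hqT _ (hr.st g _ (hiT x hx))
      st' := fun g x hx => by
        rw [hσ₁']
        exact hpT _ (hr.st' g _ (hsT x hx))
      sm := crd_sm hσ₁ hqi hr.sm
      sm' := crd_sm hσ₁' hps hr.sm'
      dual := fun g x y => by
        rw [hσ₁' g y, ← hpair, ← hact, hr.dual, hpair, hps] }
  refine ⟨m, i, p, σ₁, σ₁', ⟨hinj, hrange, fun x => ⟨s x, hps x⟩, ?_, hact, hact', hpair, hrep⟩⟩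
  ext y
  rw [LinearMap.mem_ker]
  exact hker y

end Pool.Agent.Work.MP_787500_nt.OU
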