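import Mathlib
import Pool.Agent.Work.MP_787500_nt.OU.Cnt
import Pool.Agent.Work.MP_787500_nt.OP.Dual
import Pool.Agent.Work.MP_787500_nt.GP.L13_CardN
import Pool.Agent.Work.MP_787500_nt.GP.L08_MN
import Pool.Agent.Work.MP_787500_nt.KR.L15

/-!
# Module OU/EulV (size M): the Euler characteristic with coefficients in `E`

`M = MN T l 1` with the actions of `σ` (`M`) and of `σ'` (`M'`), the pair `KR.pair_MN hl hr 1`, `(H.ld ..)` local duality. `L = zV TP σ`,
finite dimensional (`KR.zV_fd H.gens`), `A = lamN T l 1 L`, `L' = {Y | ∃ v, Y = fun g => σ' g v - v}` (the coboundaries, a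
subspace of dimension `n - finrank (KE σ')`: image of `E ^ n` under a linear map with kernel `KE σ'`), `A' = lamN T l 1 L'`.
* `A'` is the annihilator of `A` in `Z1 σ'`: `KR.perp_iff` (KR/L12.lean) for `L` and `N = 1`, and
  `PerpV TP χ b σ' L Y ↔ Y ∈ L'`: `←` `KR.cob_perpV`; `→`: `OP.perp_all` (OP/Dual.lean) for `rep_swap hl.symm hr` (OP/Base).
* `OU.perp_count`: `card A * card A' * card {m // σ-fixed} = card (Z1 σ') * card M`; by the Euler characteristic `hE` for `σ'`
  (`M'` is killed by 2 since `‖2‖ < 1`: `2` is a multiple of `l`, `hl.lmax`) and `card_invD`: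
  `card (Z1 σ') = card M ^ 2 * card {m // σ-fixed}`. So `card A * card A' = card M ^ 3`.
* `GP.card_lamN` (GP/L13_CardN.lean; the members are bounded: `KR.zv_bdd`): `card A = q ^ finrank L`,
  `card A' = q ^ (n - finrank (KE σ'))`, and `card M = q ^ n` (`MN T l 1` is in bijection with `lamN T l 1 ⊤` for `D = Unit`;
  also `OT.card_redM` in OT/Red.lean with `Vp = ⊤`). Compare exponents (`q ≥ 2`).
-/

set_option autoImplicit false
set_option linter.unusedSectionVars false

namespace Pool.Agent.Work.MP_787500_nt.OU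

open Matrix
open Pool.Agent.Work.MP_787500_nt.GP (A0 IsAct d0 d1 d2 tw cup11 cup21 cup12 cup01 cup02 EvPow IsPow OE MN
  actN actQ bN bil mq lft mq_lft mq_eq mq_add mq_smul Wq Lat pr0 lamN mem_OE bil_add_left bil_add_right bil_sub_left
  bil_sub_right bil_smul_left bil_smul_right pr0_zero_of_norm actQ_mq)
open Pool.Agent.Work.MP_787500_nt.KR (FSys Sm1 Sm2 IsChar Smooth Z1 Z2 B2 LocH LocD Pair LDual LocRep ZV PerpV zV)
open Pool.Agent.Work.MP_787500_nt.EU (invD)
open Pool.Agent.Work.MP_787500_nt.PA (toE)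
open Pool.Agent.Work.MP_787500_nt.OP (stdL mem_stdL KE mem_KE)
open Pool.Agent.Work.MP_787500_nt.OT (ordW mem_ordW)

universe v

variable {E : Type v} [NormedField E] [NormedAlgebra ℚ_[2] E] [FiniteDimensional ℚ_[2] E] {n m : ℕ}
  {P : Type*} [Group P] {TP : FSys P} {χ : P → ℤ_[2]} {iv : (P → P → A0) → A0}
  {b : Matrix (Fin n) (Fin n) E} {l : OE E} {t : E →ₗ[ℚ_[2]] ℚ_[2]}
  {T : Submodule (OE E) (Fin n → E)} {σ σ' : P → Matrix (Fin n) (Fin n) E}
  {W : Submodule E (Fin n → E)}

/-- the coboundaries of the vectors -/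
private def cobM (σ : P → Matrix (Fin n) (Fin n) E) : (Fin n → E) →ₗ[E] (P → Fin n → E) where
  toFun v := fun g => σ g *ᵥ v - v
  map_add' x y := by
    funext g
    simp only [Pi.add_apply, mulVec_add]
    abel
  map_smul' a x := by
    funext g
    simp only [Pi.smul_apply, mulVec_smul, RingHom.id_apply, smul_sub]

omit [FiniteDimensional ℚ_[2] E] in
private theorem finrank_cobM (σ : P → Matrix (Fin n) (Fin n) E) :
    Module.finrank E (LinearMap.range (cobM σ)) + Module.finrank E (KE σ) = n := by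
  have h1 := LinearMap.finrank_range_add_finrank_ker (cobM σ)
  have h2 : LinearMap.ker (cobM σ) = KE σ := by
    ext v
    rw [LinearMap.mem_ker, mem_KE]
    constructor
    · intro h g
      exact sub_eq_zero.1 (congrFun h g)
    · intro h
      funext g
      exact sub_eq_zero.2 (h g)
  rw [h2, Module.finrank_fin_fun] at h1
  exact h1

private theorem card_MN1 [IsLocalRing (OE E)] (hl : Lat b l t T) :
    Nat.card (MN T l 1) = Nat.card (IsLocalRing.ResidueField (OE E)) ^ n := by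
  have h1 := GP.card_lamN (D := Unit) hl 1 (⊤ : Submodule E (Unit → Fin n → E))
    (fun X _ => ⟨‖X ()‖, fun d => le_rfl⟩)
  have h2 : lamN (D := Unit) T l 1 (⊤ : Submodule E (Unit → Fin n → E)) = ⊤ := by
    rw [eq_top_iff]
    intro x _
    exact ⟨fun d => lft (x d : Wq T), trivial, fun d => (mq_lft _).symm⟩
  rw [h2] at h1
  have h3 : Nat.card (⊤ : Submodule (OE E) (Unit → MN T l 1)) = Nat.card (MN T l 1) := by
    rw [Nat.card_congr (Submodule.topEquiv (R := OE E) (M := Unit → MN T l 1)).toEquiv]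
    exact Nat.card_congr (Equiv.funUnique Unit _)
  have h4 : Module.finrank E (⊤ : Submodule E (Unit → Fin n → E)) = n := by
    rw [finrank_top, Module.finrank_pi_fintype]
    simp
  rw [h4, one_mul] at h1
  rw [← h3, h1]

private theorem two_MN1 (hl : Lat b l t T) (m : MN T l 1) : m + m = 0 := by
  have hn2 : ‖(2 : E)‖ < 1 := by
    have h1 : (2 : E) = algebraMap ℚ_[2] E 2 := (map_ofNat (algebraMap ℚ_[2] E) 2).symm
    rw [h1, norm_algebraMap']
    have h3 := Padic.norm_p_lt_one (p := 2)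
    exact_mod_cast h3
  have h1 := hl.lmax _ hn2
  have h2 : ‖(2 : E) / (l : E)‖ ≤ 1 := by
    rw [norm_div]
    exact div_le_one_of_le₀ h1 (norm_nonneg _)
  let a : OE E := ⟨(2 : E) / (l : E), h2⟩
  have h3 : (2 : OE E) = a * l ^ 1 := by
    apply Subtype.ext
    show (2 : E) = (2 : E) / (l : E) * ((l ^ 1 : OE E) : E)
    rw [pow_one, div_mul_cancel₀ _ hl.lne]
  have h4 : m + m = (2 : OE E) • m := by
    rw [two_smul]
  rw [h4, h3, mul_smul]
  have h5 : l ^ 1 • m = 0 := Subtype.ext m.mem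
  rw [h5, smul_zero]

theorem finrank_zV [IsLocalRing (OE E)] (H : LocD.{v} TP χ iv) (hE : EulF.{v} TP)
    (hl : Lat b l t T) (hr : LocRep TP χ T b σ σ') :
    Module.finrank E (zV TP σ) = 2 * n + Module.finrank E (KE σ') := by
  have hp := KR.pair_MN hl hr 1
  have hfinM : Finite (MN T l 1) := GP.MN_finite hl 1
  have hs : LocRep TP χ T b σ' σ := OP.rep_swap hl.symm hr
  have hfd : FiniteDimensional E (zV TP σ) := KR.zV_fd H.gens hr.one hr.mul
  have hA0 : ∀ m, d0 (actN l 1 σ hr.st) m ∈ lamN T l 1 (zV TP σ) := by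
    intro m
    refine ⟨fun g => σ g *ᵥ lft (m : Wq T) - lft (m : Wq T), OP.cob_zv hr _, fun g => ?_⟩
    show actQ T (σ g) (m : Wq T) - (m : Wq T) = _
    rw [GP.mq_sub, mq_lft, ← actQ_mq (hr.st g), mq_lft]
  have hA : ∀ x ∈ lamN T l 1 (zV TP σ), Z1 TP (actN l 1 σ hr.st) x := by
    rintro x ⟨X, hX, h1⟩
    exact KR.zv_level hl hr 1 hX h1
  have hA' : ∀ y, y ∈ lamN T l 1 (LinearMap.range (cobM σ')) ↔ Z1 TP (actN l 1 σ' hr.st') y ∧
      ∀ x ∈ lamN T l 1 (zV TP σ), iv (cup11 (actN l 1 σ' hr.st') (bN hl 1) x y) = 0 := by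
    intro y
    have h1 := KR.perp_iff H hl hr (L := zV TP σ) (fun X hX => hX) (fun v => OP.cob_zv hr v) y
    refine Iff.trans ?_ h1.symm
    constructor
    · rintro ⟨_, ⟨v, rfl⟩, h2⟩
      exact ⟨_, KR.cob_perpV hr (fun X hX => hX) v, h2⟩
    · rintro ⟨Y, hY, h2⟩
      obtain ⟨v, hv⟩ := OP.perp_all H hl hs hY.1 (fun X hX => hY.2 X hX)
      refine ⟨_, ⟨v, rfl⟩, fun d => ?_⟩
      rw [h2, hv]
      rfl
  have hcnt := perp_count H.toLocH hp (H.ld hp) hA0 hA hA'
  have h2 : ∀ m' : MN T l 1, m' + m' = 0 := two_MN1 hl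
  have hE' := hE hp.act' hp.sm' h2
  have hinv := card_invD (fun g => H.char.odd g) hp h2
  have hF : 0 < Nat.card {m : MN T l 1 // ∀ g, actN l 1 σ hr.st g m = m} := by
    have h3 : Nonempty {m : MN T l 1 // ∀ g, actN l 1 σ hr.st g m = m} :=
      ⟨⟨0, fun g => hp.act.zero g⟩⟩
    exact Nat.card_pos
  have hcA := GP.card_lamN hl 1 (zV TP σ) (fun X hX => KR.zv_bdd hX)
  have hcA' := GP.card_lamN hl 1 (LinearMap.range (cobM σ')) (fun X hX => by
    obtain ⟨v, rfl⟩ := hX
    exact KR.zv_bdd (OP.cob_zv hs v))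
  have hcM := card_MN1 (b := b) (t := t) hl
  rw [hE', hinv, hcA, hcA', hcM, one_mul, one_mul] at hcnt
  have hq : 1 < Nat.card (IsLocalRing.ResidueField (OE E)) := by
    have hfin := GP.res_finite (E := E)
    exact Finite.one_lt_card
  have h5 := Nat.eq_of_mul_eq_mul_right hF (hcnt.trans (mul_right_comm _ _ _))
  rw [← pow_add, ← pow_mul, ← pow_add] at h5
  have h6 := Nat.pow_right_injective hq h5
  have h7 := finrank_cobM σ'
  omega

end Pool.Agent.Work.MP_787500_nt.OU
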