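import Mathlib
import Pool.Agent.Work.MP_787500_nt.OU.EulV
import Pool.Agent.Work.MP_787500_nt.OU.Crd
import Pool.Agent.Work.MP_787500_nt.KR.L15

/-!
# Module OU/GrDim (size M): THE DIMENSION OF THE GREENBERG CONDITION at a split place above 2

Take `hS : SubQ ..` from `exists_subQ` (`m = finrank W`). `fixS σ' (annS b W) = p⁻¹ (KE σ₁')` (`hS.act'`, `hS.ker`), so
`finrank (fixS σ' (annS b W)) = finrank (KE σ₁') + (n - m)`. `finrank (zV TP σ₁) = 2 m + finrank (KE σ₁')` (`finrank_zV` for
`lat_std hl`, `hS.rep`).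
Let `C = {fun g => σ g v - v | v}` (coboundaries) and `Z = {fun g => i (X g) | X ∈ zV TP σ₁}` (linearly equivalent to
`zV TP σ₁`). `ordW TP σ W = Z ⊔ C`: if `X g - (σ g v - v) ∈ W` for all `g`, it is `i (Y g)` with `Y` in `ZV TP σ₁` (cocycle:
`hS.inj`, `hS.act`; continuous: there is a linear map `r` with `r ∘ i = id` (`LinearMap.exists_leftInverse_of_injective`),
`OP.n1_lin`). `Z ⊓ C = {fun g => σ g v - v | v ∈ fixS σ W}`. With `h = finrank (KE σ)`: `finrank C = n - h`,
`finrank (Z ⊓ C) = finrank (fixS σ W) - h` (`KE σ ≤ fixS σ W`), so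
`finrank (ordW) = finrank Z + finrank C - finrank (Z ⊓ C) = 2 m + finrank (KE σ₁') + n - finrank (fixS σ W)`
(`Submodule.finrank_sup_add_finrank_inf_eq`; finite dimension: `KR.zV_fd H.gens`).
-/

set_option autoImplicit false
set_option linter.unusedSectionVars false

namespace Pool.Agent.Work.MP_787500_nt.OU

open Matrix
open Pool.Agent.Work.MP_787500_nt.GP (A0 IsAct d0 d1 d2 tw cup11 cup21 cup12 cup01 cup02 EvPow IsPow OE MN
  actN actQ bN bil mq lft mq_lft mq_eq mq_add mq_smul Wq Lat pr0 lamN mem_OE bil_add_left bil_add_right bil_sub_left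
  bil_sub_right bil_smul_left bil_smul_right pr0_zero_of_norm actQ_mq)
open Pool.Agent.Work.MP_787500_nt.KR (FSys Sm1 Sm2 IsChar Smooth Z1 Z2 B2 LocH LocD Pair LDual LocRep ZV PerpV zV)
open Pool.Agent.Work.MP_787500_nt.EU (invD)
open Pool.Agent.Work.MP_787500_nt.PA (toE)
open Pool.Agent.Work.MP_787500_nt.OP (stdL mem_stdL KE mem_KE)
open Pool.Agent.Work.MP_787500_nt.OT (ordW mem_ordW)

universe v

variable {E : Type v} [NormedField E] [NormedAlgebra ℚ_[2] E] [FiniteDimensional ℚ_[2] E] {n m : ℕ}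
  {P : Type*} [Group P] {TP : FSys P} {χ : P → ℤ_[2]} {iv : (P → P → A0) → A0}
  {b : Matrix (Fin n) (Fin n) E} {l : OE E} {t : E →ₗ[ℚ_[2]] ℚ_[2]}
  {T : Submodule (OE E) (Fin n → E)} {σ σ' : P → Matrix (Fin n) (Fin n) E}
  {W : Submodule E (Fin n → E)}

/-- rank and nullity for the image of a subspace that contains the kernel -/
private theorem dim_map {K V U : Type*} [Field K] [AddCommGroup V] [Module K V]
    [FiniteDimensional K V] [AddCommGroup U] [Module K U] (f : V →ₗ[K] U) (S : Submodule K V)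
    (h : LinearMap.ker f ≤ S) :
    Module.finrank K (S.map f) + Module.finrank K (LinearMap.ker f) = Module.finrank K S := by
  have h1 := LinearMap.finrank_range_add_finrank_ker (f.domRestrict S)
  have h2 : LinearMap.range (f.domRestrict S) = S.map f := by
    ext x
    constructor
    · rintro ⟨y, rfl⟩
      exact ⟨y, y.2, rfl⟩
    · rintro ⟨y, hy, rfl⟩
      exact ⟨⟨y, hy⟩, rfl⟩
  have h3 : (LinearMap.ker (f.domRestrict S)).map S.subtype = LinearMap.ker f := by
    ext x
    constructor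
    · rintro ⟨y, hy, rfl⟩
      exact hy
    · intro hx
      exact ⟨⟨x, h hx⟩, hx, rfl⟩
  have h4 : Module.finrank K ((LinearMap.ker (f.domRestrict S)).map S.subtype) =
      Module.finrank K (LinearMap.ker (f.domRestrict S)) :=
    (Submodule.equivMapOfInjective S.subtype S.injective_subtype _).symm.finrank_eq
  rw [h2, ← h4, h3] at h1
  exact h1

/-- the coboundaries of the vectors -/
private def cobL (σ : P → Matrix (Fin n) (Fin n) E) : (Fin n → E) →ₗ[E] (P → Fin n → E) where
  toFun v := fun g => σ g *ᵥ v - v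
  map_add' x y := by
    funext g
    simp only [Pi.add_apply, mulVec_add]
    abel
  map_smul' a x := by
    funext g
    simp only [Pi.smul_apply, mulVec_smul, RingHom.id_apply, smul_sub]

private theorem ker_cobL (σ : P → Matrix (Fin n) (Fin n) E) : LinearMap.ker (cobL σ) = KE σ := by
  ext x
  rw [LinearMap.mem_ker, mem_KE]
  constructor
  · intro h g
    exact sub_eq_zero.1 (congrFun h g)
  · intro h
    funext g
    exact sub_eq_zero.2 (h g)

theorem finrank_ordW [IsLocalRing (OE E)] (H : LocD.{v} TP χ iv) (hE : EulF.{v} TP)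
    (hl : Lat b l t T) (hr : LocRep TP χ T b σ σ') (hst : ∀ g, ∀ x ∈ W, σ g *ᵥ x ∈ W) :
    Module.finrank E (ordW TP σ W) + Module.finrank E (fixS σ W) =
      3 * Module.finrank E W + Module.finrank E (fixS σ' (annS b W)) := by
  obtain ⟨m, i, p, σ₁, σ₁', hS⟩ := exists_subQ hl hr hst
  -- the dimension of `W`
  have dW : Module.finrank E W = m := by
    rw [← hS.ran, LinearMap.finrank_range_of_inj hS.inj, Module.finrank_fin_fun]
  have dA : m + Module.finrank E (LinearMap.ker p) = n := by
    have h1 := LinearMap.finrank_range_add_finrank_ker p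
    rw [LinearMap.range_eq_top.2 hS.surj, finrank_top, Module.finrank_fin_fun,
      Module.finrank_fin_fun] at h1
    exact h1
  -- the fixed vectors modulo the annihilator
  have dF : Module.finrank E (fixS σ' (annS b W)) =
      Module.finrank E (KE σ₁') + Module.finrank E (LinearMap.ker p) := by
    have h1 : fixS σ' (annS b W) = (KE σ₁').comap p := by
      ext x
      rw [mem_fixS, Submodule.mem_comap, mem_KE]
      refine forall_congr' fun g => ?_
      rw [← hS.ker, LinearMap.mem_ker, map_sub, hS.act', sub_eq_zero]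
    have h2 := dim_map p ((KE σ₁').comap p) (fun x hx => by
      rw [Submodule.mem_comap, LinearMap.mem_ker.1 hx]
      exact (KE σ₁').zero_mem)
    rw [Submodule.map_comap_eq_of_surjective hS.surj] at h2
    rw [h1, h2]
  have dz := finrank_zV H hE (lat_std hl) hS.rep
  have hfd : FiniteDimensional E (zV TP σ₁) := KR.zV_fd H.gens hS.rep.one hS.rep.mul
  -- the two parts
  let I : (P → Fin m → E) →ₗ[E] (P → Fin n → E) := LinearMap.compLeft i P
  have hI : Function.Injective I := fun X X' h => funext fun g => hS.inj (congrFun h g)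
  have dZ : Module.finrank E ((zV TP σ₁).map I) = Module.finrank E (zV TP σ₁) :=
    (Submodule.equivMapOfInjective I hI _).symm.finrank_eq
  have mZ : ∀ Y, ZV TP σ Y → (∀ g, Y g ∈ W) → Y ∈ (zV TP σ₁).map I := by
    intro Y hY hYW
    obtain ⟨r, hr'⟩ := LinearMap.exists_leftInverse_of_injective i (LinearMap.ker_eq_bot.2 hS.inj)
    have hri : ∀ x, r (i x) = x := fun x => LinearMap.congr_fun hr' x
    have hir : ∀ g, i (r (Y g)) = Y g := by
      intro g
      have h1 := hYW g
      rw [← hS.ran] at h1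
      obtain ⟨x, hx⟩ := h1
      rw [← hx, hri]
    refine ⟨fun g => r (Y g), ⟨OP.n1_lin r hY.1, fun s u => ?_⟩, funext hir⟩
    apply hS.inj
    show i (r (Y (s * u))) = i (r (Y s) + σ₁ s *ᵥ r (Y u))
    rw [map_add, ← hS.act, hir, hir, hir, hY.2]
  have hsum : ordW TP σ W = (zV TP σ₁).map I ⊔ LinearMap.range (cobL σ) := by
    apply le_antisymm
    · rintro X ⟨hX, v, hv⟩
      have h1 : X = (fun g => X g - (σ g *ᵥ v - v)) + cobL σ v := by
        funext g
        exact (sub_add_cancel _ _).symm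
      rw [h1]
      exact Submodule.add_mem_sup (mZ _ ((zV TP σ).sub_mem hX (OP.cob_zv hr v)) hv) ⟨v, rfl⟩
    · refine sup_le ?_ ?_
      · rintro _ ⟨X, hX, rfl⟩
        refine ⟨⟨OP.n1_lin i hX.1, fun s u => ?_⟩, 0, fun g => ?_⟩
        · show i (X (s * u)) = i (X s) + σ s *ᵥ i (X u)
          rw [hX.2, map_add, hS.act]
        · show i (X g) - (σ g *ᵥ 0 - 0) ∈ W
          rw [mulVec_zero, sub_zero, sub_zero, ← hS.ran]
          exact ⟨_, rfl⟩
      · rintro _ ⟨v, rfl⟩
        refine ⟨OP.cob_zv hr v, v, fun g => ?_⟩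
        show (σ g *ᵥ v - v) - (σ g *ᵥ v - v) ∈ W
        rw [sub_self]
        exact W.zero_mem
  have hinf : (zV TP σ₁).map I ⊓ LinearMap.range (cobL σ) = (fixS σ W).map (cobL σ) := by
    apply le_antisymm
    · rintro _ ⟨⟨X, hX, hXv⟩, ⟨v, rfl⟩⟩
      refine ⟨v, fun g => ?_, rfl⟩
      have h1 : i (X g) = σ g *ᵥ v - v := congrFun hXv g
      rw [← h1, ← hS.ran]
      exact ⟨_, rfl⟩
    · rintro _ ⟨v, hv, rfl⟩
      exact ⟨mZ _ (OP.cob_zv hr v) hv, ⟨v, rfl⟩⟩
  have hKF : LinearMap.ker (cobL σ) ≤ fixS σ W := by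
    intro x hx g
    have h1 : σ g *ᵥ x - x = 0 := congrFun (LinearMap.mem_ker.1 hx) g
    rw [h1]
    exact W.zero_mem
  have dI := dim_map (cobL σ) (fixS σ W) hKF
  have dC := LinearMap.finrank_range_add_finrank_ker (cobL σ)
  rw [Module.finrank_fin_fun] at dC
  have dS := Submodule.finrank_sup_add_finrank_inf_eq ((zV TP σ₁).map I) (LinearMap.range (cobL σ))
  rw [← hsum, hinf, dZ] at dS
  omega

end Pool.Agent.Work.MP_787500_nt.OU
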