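import Mathlib
import Pool.Agent.Work.MP_787500_nt.OU.Crd
import Pool.Agent.Work.MP_787500_nt.OP.Dual

/-!
# Module OU/PerpO (size M): the annihilator of the Greenberg condition

Take `hS : SubQ ..` from `exists_subQ`.
`→`: for `X₁ ∈ ZV TP σ₁` the function `fun g => i (X₁ g)` is in `ordW TP σ W` (`v = 0`, `hS.ran`; continuous: `OP.n1_lin`;
cocycle: `hS.act`), and `bil b (i (X₁ g)) (σ' g (Y u)) = bil 1 (X₁ g) (σ₁' g (p (Y u)))` (`hS.pair`, `hS.act'`). So by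
`OP.perp_all` (OP/Dual.lean; lattice `stdL E m` with `lat_std hl`; `LocRep TP χ .. 1 σ₁' σ₁` by `OP.rep_swap`) `p (Y g) = σ₁' g v₁ - v₁`, `v₁ = p v`, and
`Y g - (σ' g v - v) ∈ ker p = annS b W`.
`←`: `X g = X' g + (σ g v - v)`, `X' g ∈ W`; `Y g = Y' g + (σ' g v' - v')`, `Y' g ∈ annS b W`; all are continuous cocycles
(`OP.cob_zv`). `bil b (X' g) (σ' g (Y' u)) = 0` (`annS b W` is `σ'`-stable: `hr.dual`). The cup products with a coboundary as
a factor are in `KP.BE`: `bil b (σ g v - v) (σ' g (Y u)) = dE χ (fun g => bil b v (Y g))`,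
`bil b (X g) (σ' g (σ' u v' - v')) = dE χ (fun g => - bil b (X g) (σ' g v'))` (`hr.dual`; as in the proof of
`KR.cob_perpV`, KR/L09.lean), continuous: `OP.n1_bil`, `OP.n1_act`. `KR.be_add`.
-/

set_option autoImplicit false
set_option linter.unusedSectionVars false

namespace Pool.Agent.Work.MP_787500_nt.OU

open Matrix
open Pool.Agent.Work.MP_787500_nt.GP (A0 IsAct d0 d1 d2 tw cup11 cup21 cup12 cup01 cup02 EvPow IsPow OE MN
  actN actQ bN bil mq lft mq_lft mq_eq mq_add mq_smul Wq Lat pr0 lamN mem_OE bil_add_left bil_add_right bil_sub_left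
  bil_sub_right bil_smul_left bil_smul_right pr0_zero_of_norm actQ_mq)
open Pool.Agent.Work.MP_787500_nt.KR (FSys Sm1 Sm2 IsChar Smooth Z1 Z2 B2 LocH LocD Pair LDual LocRep ZV PerpV zV)
open Pool.Agent.Work.MP_787500_nt.EU (invD)
open Pool.Agent.Work.MP_787500_nt.PA (toE)
open Pool.Agent.Work.MP_787500_nt.OP (stdL mem_stdL KE mem_KE)
open Pool.Agent.Work.MP_787500_nt.OT (ordW mem_ordW)

universe v

variable {E : Type v} [NormedField E] [NormedAlgebra ℚ_[2] E] [FiniteDimensional ℚ_[2] E] {n m : ℕ}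
  {P : Type*} [Group P] {TP : FSys P} {χ : P → ℤ_[2]} {iv : (P → P → A0) → A0}
  {b : Matrix (Fin n) (Fin n) E} {l : OE E} {t : E →ₗ[ℚ_[2]] ℚ_[2]}
  {T : Submodule (OE E) (Fin n → E)} {σ σ' : P → Matrix (Fin n) (Fin n) E}
  {W : Submodule E (Fin n → E)}

private theorem n1_const (v : Fin n → E) : KP.N1 TP (fun _ => v) := by
  intro ε hε
  obtain ⟨W₀, hW₀⟩ := TP.ex
  exact ⟨W₀, hW₀, fun g w _ => by simpa using hε⟩

private theorem annS_st (hr : LocRep TP χ T b σ σ') (hst : ∀ g, ∀ x ∈ W, σ g *ᵥ x ∈ W) (g : P)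
    {y : Fin n → E} (hy : y ∈ annS b W) {x : Fin n → E} (hx : x ∈ W) :
    bil b x (σ' g *ᵥ y) = 0 := by
  have h1 : x = σ g *ᵥ (σ g⁻¹ *ᵥ x) := by
    rw [mulVec_mulVec, ← hr.mul, mul_inv_cancel, hr.one, one_mulVec]
  rw [h1, hr.dual, hy _ (hst g⁻¹ x hx), mul_zero]

/-- the cup product with a coboundary as left factor -/
private theorem be_cob (hr : LocRep TP χ T b σ σ') {Z : P → Fin n → E} (hZ : ZV TP σ' Z)
    (v : Fin n → E) : KP.BE TP χ (fun g u => bil b (σ g *ᵥ v - v) (σ' g *ᵥ Z u)) := by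
  refine ⟨fun g => bil b v (Z g), OP.n1_bil b (n1_const v) hZ.1, ?_⟩
  funext g u
  have e : bil b (σ g *ᵥ v) (σ' g *ᵥ Z u) = toE E (χ g) * bil b v (Z u) := hr.dual g _ _
  simp only [PA.dE, hZ.2, bil_add_right, bil_sub_left, e]
  ring

theorem perp_ordW (H : LocD.{v} TP χ iv) (hl : Lat b l t T) (hr : LocRep TP χ T b σ σ')
    (hst : ∀ g, ∀ x ∈ W, σ g *ᵥ x ∈ W) {Y : P → Fin n → E} (hY : ZV TP σ' Y) :
    (∀ X ∈ ordW TP σ W, KP.BE TP χ (fun g u => bil b (X g) (σ' g *ᵥ Y u))) ↔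
      Y ∈ ordW TP σ' (annS b W) := by
  constructor
  · intro hX
    obtain ⟨m, i, p, σ₁, σ₁', hS⟩ := exists_subQ hl hr hst
    have hpY : ZV TP σ₁' (fun g => p (Y g)) := by
      refine ⟨OP.n1_lin p hY.1, fun s u => ?_⟩
      show p (Y (s * u)) = p (Y s) + σ₁' s *ᵥ p (Y u)
      rw [hY.2, map_add, hS.act']
    obtain ⟨v₁, hv₁⟩ := OP.perp_all H (lat_std hl) (OP.rep_swap transpose_one hS.rep) hpY
      (fun X₁ hX₁ => by
        have h1 : (fun g => i (X₁ g)) ∈ ordW TP σ W := by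
          refine ⟨⟨OP.n1_lin i hX₁.1, fun s u => ?_⟩, 0, fun g => ?_⟩
          · show i (X₁ (s * u)) = i (X₁ s) + σ s *ᵥ i (X₁ u)
            rw [hX₁.2, map_add, hS.act]
          · show i (X₁ g) - (σ g *ᵥ 0 - 0) ∈ W
            rw [mulVec_zero, sub_zero, sub_zero, ← hS.ran]
            exact ⟨_, rfl⟩
        have h2 := hX _ h1
        have h3 : (fun g u => bil b (i (X₁ g)) (σ' g *ᵥ Y u)) =
            fun g u => bil 1 (X₁ g) (σ₁' g *ᵥ p (Y u)) := by
          funext g u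
          rw [hS.pair, hS.act']
        rw [← h3]
        exact h2)
    obtain ⟨v, hv⟩ := hS.surj v₁
    refine ⟨hY, v, fun g => ?_⟩
    rw [← hS.ker, LinearMap.mem_ker, map_sub, map_sub, hS.act', hv, hv₁ g, sub_self]
  · rintro ⟨-, v', hv'⟩ X ⟨hX, v, hv⟩
    have hs : LocRep TP χ T b σ' σ := OP.rep_swap hl.symm hr
    have hZ : ZV TP σ' (fun g => Y g - (σ' g *ᵥ v' - v')) := (zV TP σ').sub_mem hY (OP.cob_zv hs v')
    have h1 := be_cob hr hZ v
    have h2 : KP.BE TP χ (fun g u => bil b (X g) (σ' g *ᵥ (σ' u *ᵥ v' - v'))) :=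
      (KR.cob_perpV hr (L := zV TP σ) (fun _ h => h) v').2 X hX
    have h3 := KR.be_add h1 h2
    have h4 : (fun g u => bil b (X g) (σ' g *ᵥ Y u)) = fun g u =>
        bil b (σ g *ᵥ v - v) (σ' g *ᵥ (Y u - (σ' u *ᵥ v' - v'))) +
          bil b (X g) (σ' g *ᵥ (σ' u *ᵥ v' - v')) := by
      funext g u
      have h5 := annS_st hr hst g (hv' u) (hv g)
      rw [bil_sub_left, sub_eq_zero] at h5
      rw [← h5, ← bil_add_right, ← mulVec_add, sub_add_cancel]
    rw [h4]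
    exact h3

end Pool.Agent.Work.MP_787500_nt.OU
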